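import Pool.Agent.helper24.IC.Spec

/-!
# MP_337222_al, row BAS: the rows `b a j`
-/

set_option autoImplicit false

namespace Pool.Agent.IC

universe u

/-- `E a * E c = E c` for `a ≤ c`. -/
theorem BAS_EE {S : Type u} [Ring S] {R : ℕ → Subring S} {E : ℕ → S} {γ : ℕ → ℕ → S} (h : Mac R E γ)
    {a c : ℕ} (hac : a ≤ c) : E a * E c = E c := by
  induction c, hac using Nat.le_induction with
  | base => exact h.idem a
  | succ c hc ih => rw [← h.le1 c, ← mul_assoc, ih]

theorem BAS_succ_le {S : Type u} [Ring S] (E : ℕ → S) (γ : ℕ → ℕ → S) {a j : ℕ} (hj : j ≤ a) :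
    bb E γ (a + 1) j = bb E γ a j * E (a + 1) := by
  rw [bb]
  simp [hj]

theorem BAS_succ_eq {S : Type u} [Ring S] (E : ℕ → S) (γ : ℕ → ℕ → S) (a : ℕ) :
    bb E γ (a + 1) (a + 1) = ∑ l ∈ Finset.range (a + 1), bb E γ a l * γ a l := by
  rw [bb]
  simp

theorem BAS_succ_gt {S : Type u} [Ring S] (E : ℕ → S) (γ : ℕ → ℕ → S) {a j : ℕ} (hj : a + 1 < j) :
    bb E γ (a + 1) j = 0 := by
  rw [bb]
  have h1 : ¬ j ≤ a := by omega
  have h2 : j ≠ a + 1 := by omega
  simp [h1, h2]

theorem BAS_one {S : Type u} [Ring S] {R : ℕ → Subring S} {E : ℕ → S} {γ : ℕ → ℕ → S} (h : Mac R E γ)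
    (a : ℕ) : ∀ j, bb E γ a j ∈ R a ∧ bb E γ a j * E a = bb E γ a j := by
  induction a with
  | zero =>
    intro j
    rw [bb]
    by_cases hj : j = 0
    · simp only [hj, if_true]
      exact ⟨h.mem 0, h.idem 0⟩
    · simp only [hj, if_false]
      exact ⟨(R 0).zero_mem, zero_mul _⟩
  | succ a ih =>
    intro j
    rcases lt_trichotomy j (a + 1) with hj | hj | hj
    · rw [BAS_succ_le E γ (by omega : j ≤ a)]
      refine ⟨(R (a + 1)).mul_mem (h.mono (Nat.le_succ a) (ih j).1) (h.mem (a + 1)), ?_⟩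
      rw [mul_assoc, h.idem]
    · subst hj
      rw [BAS_succ_eq]
      refine ⟨Subring.sum_mem _ fun l _ => (R (a + 1)).mul_mem (h.mono (Nat.le_succ a) (ih l).1) (h.memg a l), ?_⟩
      rw [Finset.sum_mul]
      refine Finset.sum_congr rfl fun l _ => ?_
      rw [mul_assoc, h.g2]
    · rw [BAS_succ_gt E γ hj]
      exact ⟨(R (a + 1)).zero_mem, zero_mul _⟩

theorem BAS_two {S : Type u} [Ring S] (E : ℕ → S) (γ : ℕ → ℕ → S) :
    ∀ a j, a < j → bb E γ a j = 0 := by
  intro a j haj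
  cases a with
  | zero =>
    rw [bb]
    have : j ≠ 0 := by omega
    simp [this]
  | succ a => exact BAS_succ_gt E γ haj

theorem BAS_three {S : Type u} [Ring S] {R : ℕ → Subring S} {E : ℕ → S} {γ : ℕ → ℕ → S} (h : Mac R E γ)
    {a c j : ℕ} (hj : j ≤ a) (hac : a ≤ c) : bb E γ c j = bb E γ a j * E c := by
  induction c, hac using Nat.le_induction with
  | base => exact ((BAS_one h a j).2).symm
  | succ c hc ih => rw [BAS_succ_le E γ (by omega : j ≤ c), ih, mul_assoc, h.le1]

theorem BAS_step {S : Type u} [Ring S] (E : ℕ → S) (γ : ℕ → ℕ → S) {a i : ℕ} {s : S}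
    (hs : ∀ j < i, s * bb E γ a j = 0) : ∀ j < i, s * bb E γ (a + 1) j = 0 := by
  intro j hj
  rcases lt_trichotomy j (a + 1) with h1 | h1 | h1
  · rw [BAS_succ_le E γ (by omega : j ≤ a), ← mul_assoc, hs j hj, zero_mul]
  · subst h1
    rw [BAS_succ_eq, Finset.mul_sum]
    refine Finset.sum_eq_zero fun l hl => ?_
    have hl' := Finset.mem_range.mp hl
    rw [← mul_assoc, hs l (by omega), zero_mul]
  · rw [BAS_succ_gt E γ h1, mul_zero]

/-- **Row BAS** -/
theorem BAS : BAS_stmt.{u} := by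
  intro S _ R E γ h
  refine ⟨fun a j => BAS_one h a j, BAS_two E γ, fun a c j hj hac => BAS_three h hj hac, ?_, ?_⟩
  · intro a c j s hs hj hac hz
    rw [BAS_three h hj hac] at hz
    by_contra hne
    have hx : s * bb E γ a j ∈ R a := (R a).mul_mem hs (BAS_one h a j).1
    have hxe : s * bb E γ a j * E a = s * bb E γ a j := by rw [mul_assoc, (BAS_one h a j).2]
    rcases h.prim a _ hx with h0 | ⟨y, -, hy⟩
    · exact hne (by rw [← hxe]; exact h0)
    · have : E c = 0 := by
        rw [← BAS_EE h hac, ← hy, hxe, mul_assoc y, mul_assoc s, hz, mul_zero]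
      exact h.ne c this
  · intro a c i s hac hs
    induction c, hac using Nat.le_induction with
    | base => exact hs
    | succ c hc ih => exact BAS_step E γ ih

end Pool.Agent.IC
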